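import Mathlib
import Pool.Agent.H706Z.Dirac
import Pool.Agent.Helper639.ForceCH

set_option autoImplicit false

namespace Pool.Agent.Results.MP_aebb62_gt.ConsistentCounterexample

open MeasureTheory
open Pool.Agent.Helper639.ForceCH (OmegaOnePreserved CHHolds)

/-- Some forcing notion forces that `ω₁` is preserved and CH holds, and CH implies that there is a
compact Hausdorff space `X` of countable tightness, a point `x` and a set `A` of regular Borel
probability measures on `X` such that the Dirac measure at `x` is in the weak closure of `A` but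
not in the weak closure of any countable subset of `A`. -/
theorem result :
    (∃ (P : Type) (_ : Preorder P), Nonempty P ∧
      ∀ p : P, p ∈ OmegaOnePreserved P ∧ p ∈ CHHolds P) ∧
    (Cardinal.aleph.{0} 1 = Cardinal.continuum →
      ∃ (X : Type) (_ : TopologicalSpace X) (_ : MeasurableSpace X) (_ : BorelSpace X),
        CompactSpace X ∧ T2Space X ∧
        (∀ (S : Set X) (y : X), y ∈ closure S → ∃ T ⊆ S, T.Countable ∧ y ∈ closure T) ∧
        ∃ (x : X) (A : Set (ProbabilityMeasure X)), (∀ μ ∈ A, (μ : Measure X).Regular) ∧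
          (⟨Measure.dirac x, inferInstance⟩ : ProbabilityMeasure X) ∈ closure A ∧
          ∀ B ⊆ A, B.Countable →
            (⟨Measure.dirac x, inferInstance⟩ : ProbabilityMeasure X) ∉ closure B) := by
  refine ⟨?_, fun hCH => ?_⟩
  · obtain ⟨P, i, hn, h⟩ := Pool.Agent.Helper639.ForceCH.exists_forcing
    exact ⟨P, i, hn, fun p => ⟨(h p).1, (h p).2.2⟩⟩
  · obtain ⟨X, i1, i2, i3, h1, h2, h3, h4⟩ := Pool.Agent.H706Z.Dirac.main hCH
    refine ⟨X, i1, i2, i3, h1, h2, fun S y hy => ?_, h4⟩
    obtain ⟨u, hu1, hu2⟩ := mem_closure_iff_seq_limit.mp hy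
    exact ⟨Set.range u, Set.range_subset_iff.mpr hu1, Set.countable_range u,
      mem_closure_of_tendsto hu2 (Filter.Eventually.of_forall Set.mem_range_self)⟩

end Pool.Agent.Results.MP_aebb62_gt.ConsistentCounterexample
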